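import Mathlib
import Pool.Agent.Y845.CP.Cong
import Pool.Agent.Y845.CP.Conn
import Pool.Agent.Y845.CP.Geo

set_option autoImplicit false

namespace Pool.Agent.Results.MP_8aa8ea_co.CevianParity

open Pool.Agent.Results.MP_8aa8ea_co.NotSelfPolar Pool.Agent.Y845.CP

/-- the three lines through a point -/
theorem three_lines {m : ℕ} (C : Config m 3) (p : Fin m) : ∃ L3 : Fin 3 → Fin m,
    Function.Injective L3 ∧ ∀ j, C.inc p j ↔ ∃ k, L3 k = j := by
  obtain ⟨x, y, z, hxy, hxz, hyz, h⟩ := Set.ncard_eq_three.mp (C.lines_through p)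
  refine ⟨![x, y, z], ?_, ?_⟩
  · intro a b hab
    fin_cases a <;> fin_cases b <;> simp_all
  · intro j
    have : C.inc p j ↔ j ∈ ({x, y, z} : Set (Fin m)) := by rw [← h]; rfl
    rw [this]
    constructor
    · rintro (rfl | rfl | rfl)
      · exact ⟨0, rfl⟩
      · exact ⟨1, rfl⟩
      · exact ⟨2, rfl⟩
    · rintro ⟨k, rfl⟩
      fin_cases k <;> simp

theorem main {m : ℕ} (C : Config m 3) (hR : Nonempty (Realization C)) (p : Fin m) :
    ∃ D : Config (2 * m + 5) 3, Nonempty (Realization D) ∧ rank D = 2 ∧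
      (Connected C → Connected D) ∧
      (∃ (f : {x : Fin m // x ≠ p} → Fin (2 * m + 5)) (g : Fin m → Fin (2 * m + 5)),
        Function.Injective f ∧ Function.Injective g ∧
          ∀ x j, D.inc (f x) (g j) ↔ C.inc x.1 j) ∧
      ¬ 4 ∣ (Cev D.inc).ncard ∧
      ∀ R : Realization D, ¬ SelfCorrelated R ∧
        ∀ (c : Plane) (r : ℝ), 0 < r → PolarDefined R c → ¬ CongruentToPolar R c r := by
  obtain ⟨L3, hinj, hL3⟩ := three_lines C p
  have h4 := not_four_dvd hinj hL3
  have hno : ∀ R : Realization (newC C p L3 hinj hL3), ¬ SelfCorrelated R := fun R h =>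
    h4 (four_dvd_of_selfCorrelated R h)
  refine ⟨newC C p L3 hinj hL3, new_real hinj hL3 hR, ?_, new_connected hinj hL3,
    ⟨fun x => enum p (Sum.inr (Sum.inr (Sum.inl x))), fun j => enum p (Sum.inr (Sum.inr (Sum.inr j))),
      ?_, ?_, ?_⟩, h4, fun R => ⟨hno R, fun c r hr _ h => hno R (selfCorrelated_of_congruent R hr h)⟩⟩
  · exact rank_two _ (by omega) (fun i j => adj_symm _ _)
  · intro x y h
    simpa using (enum p).injective h
  · intro x y h
    simpa using (enum p).injective h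
  · intro x j
    simp [newC, Pool.Agent.Y845.CP.adj]

/-! ### The starting configuration is connected -/

instance : DecidableRel (Incident C12) := by
  intro x y
  rcases x with i | i <;> rcases y with j | j
  · exact isFalse id
  · exact inferInstanceAs (Decidable (inc12 i j))
  · exact inferInstanceAs (Decidable (inc12 j i))
  · exact isFalse id

def par : Fin 12 ⊕ Fin 12 → Fin 12 ⊕ Fin 12 :=
  Sum.elim ![Sum.inl 0, Sum.inr 2, Sum.inr 1, Sum.inr 3, Sum.inr 1, Sum.inr 2, Sum.inr 7, Sum.inr 3,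
      Sum.inr 5, Sum.inr 4, Sum.inr 9, Sum.inr 8]
    ![Sum.inl 2, Sum.inl 0, Sum.inl 0, Sum.inl 0, Sum.inl 4, Sum.inl 2, Sum.inl 7, Sum.inl 3,
      Sum.inl 5, Sum.inl 4, Sum.inl 9, Sum.inl 7]

def rk : Fin 12 ⊕ Fin 12 → ℕ :=
  Sum.elim ![0, 2, 2, 2, 2, 2, 4, 2, 4, 4, 4, 4] ![3, 1, 1, 1, 3, 3, 3, 3, 3, 3, 5, 3]

theorem par_spec : ∀ x, x = Sum.inl 0 ∨ (rk (par x) < rk x ∧ Incident C12 (par x) x) := by
  decide +kernel

theorem reach : ∀ (k : ℕ) (x : Fin 12 ⊕ Fin 12), rk x ≤ k →
    Relation.ReflTransGen (Incident C12) (Sum.inl 0) x := by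
  intro k
  induction k with
  | zero =>
    intro x hx
    rcases par_spec x with rfl | ⟨h, -⟩
    · exact Relation.ReflTransGen.refl
    · omega
  | succ k ih =>
    intro x hx
    rcases par_spec x with rfl | ⟨h, h2⟩
    · exact Relation.ReflTransGen.refl
    · exact Relation.ReflTransGen.tail (ih (par x) (by omega)) h2

theorem C12_connected : Connected C12 := by
  intro x y
  exact (Std.Symm.symm (r := Relation.ReflTransGen (Incident C12)) _ _ (reach _ x le_rfl)).trans
    (reach _ y le_rfl)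

/-- **Main result.** See the claim file. -/
theorem result :
    (∀ (n q : ℕ) (C : Config n q) (R : Realization C), SelfCorrelated R →
      4 ∣ (Cev C.inc).ncard) ∧
    (∀ (m : ℕ) (C : Config m 3), Nonempty (Realization C) → ∀ p : Fin m,
      ∃ D : Config (2 * m + 5) 3, Nonempty (Realization D) ∧ rank D = 2 ∧
        (Connected C → Connected D) ∧
        (∃ (f : {x : Fin m // x ≠ p} → Fin (2 * m + 5)) (g : Fin m → Fin (2 * m + 5)),
          Function.Injective f ∧ Function.Injective g ∧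
            ∀ x j, D.inc (f x) (g j) ↔ C.inc x.1 j) ∧
        ¬ 4 ∣ (Cev D.inc).ncard ∧
        ∀ R : Realization D, ¬ SelfCorrelated R ∧
          ∀ (c : Plane) (r : ℝ), 0 < r → PolarDefined R c → ¬ CongruentToPolar R c r) ∧
    (∀ N : ℕ, ∃ (n : ℕ) (D : Config n 3), N ≤ n ∧ Connected D ∧ Nonempty (Realization D) ∧
      rank D = 2 ∧ ∀ R : Realization D, ¬ SelfCorrelated R ∧
        ∀ (c : Plane) (r : ℝ), 0 < r → PolarDefined R c → ¬ CongruentToPolar R c r) := by
  refine ⟨fun n q C R h => four_dvd_of_selfCorrelated R h, fun m C hR p => main C hR p, ?_⟩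
  intro N
  have : ∀ N : ℕ, ∃ (n : ℕ) (D : Config n 3), N + 12 ≤ n ∧ Connected D ∧
      Nonempty (Realization D) := by
    intro N
    induction N with
    | zero => exact ⟨12, C12, le_rfl, C12_connected, ⟨R12⟩⟩
    | succ N ih =>
      obtain ⟨n, D, hn, hD, hR⟩ := ih
      obtain ⟨D', h1, -, h3, -⟩ := main D hR ⟨0, by omega⟩
      exact ⟨2 * n + 5, D', by omega, h3 hD, h1⟩
  obtain ⟨n, D, hn, hD, hR⟩ := this N
  obtain ⟨D', h1, h2, h3, -, -, h6⟩ := main D hR ⟨0, by omega⟩
  exact ⟨2 * n + 5, D', by omega, h3 hD, h1, h2, h6⟩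

end Pool.Agent.Results.MP_8aa8ea_co.CevianParity
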